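import Mathlib

set_option autoImplicit false
open Set Cardinal Order

namespace Pool.Agent.H.MP_64b69f

abbrev W (c : Cardinal.{0}) : Type := (succ c).ord.ToType

variable {c d : Cardinal.{0}} {Z T : Type}

theorem sm (b : W c) : #(Iio b) ≤ c := lt_succ_iff.1 (mk_Iio_toType_ord_lt b)

theorem un (hc : ℵ₀ ≤ c) {s : Set T} {A : T → Set Z} (h1 : #s ≤ c) (h2 : ∀ x ∈ s, #(A x) ≤ c) :
    #(⋃ x ∈ s, A x) ≤ c :=
  (mk_biUnion_le A s).trans (mul_le_of_le hc h1 (ciSup_le' fun x => h2 x x.2))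

theorem un2 (hc : ℵ₀ ≤ c) {s t : Set Z} (h1 : #s ≤ c) (h2 : #t ≤ c) : #(s ∪ t : Set Z) ≤ c :=
  (mk_union_le s t).trans (add_le_of_le hc h1 h2)

theorem sm' (hc : ℵ₀ ≤ c) (b : W c) : #(Iic b) ≤ c := by
  rw [← Iio_union_right]
  exact un2 hc (sm b) ((mk_singleton b).trans_le (one_le_aleph0.trans hc))

theorem bd (hc : ℵ₀ ≤ c) {s : Set (W c)} (hs : #s ≤ c) : ∃ b, ∀ a ∈ s, a < b := by
  by_contra! k
  refine (lt_succ c).not_ge (((mk_ord_toType _).symm.trans mk_univ.symm).trans_le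
    ((mk_le_mk_of_subset fun b _ => ?_).trans (un hc hs fun a _ => sm' hc a)))
  obtain ⟨a, a1, a2⟩ := k b
  exact mem_biUnion a1 a2

theorem rc (hd : ℵ₀ ≤ d) (hc : c ≤ d) (F : Set Z → Set Z) (hF : ∀ V : Set Z, #V ≤ d → #(F V) ≤ d) :
    ∃ U : W c → Set Z, ∀ ξ, #(⋃ ζ ∈ Iio ξ, U ζ) ≤ d ∧ U ξ = F (⋃ ζ ∈ Iio ξ, U ζ) := by
  let U : W c → Set Z := (wellFounded_lt (α := W c)).fix fun ξ v => F (⋃ ζ, ⋃ e : ζ < ξ, v ζ e)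
  have u1 : ∀ ξ, U ξ = F (⋃ ζ ∈ Iio ξ, U ζ) := fun ξ => WellFounded.fix_eq _ _ _
  have u2 : ∀ ξ, #(U ξ) ≤ d := fun ξ => by
    induction ξ using WellFoundedLT.induction with
    | ind ξ ih => exact u1 ξ ▸ hF _ (un hd ((sm ξ).trans hc) ih)
  exact ⟨U, fun ξ => ⟨un hd ((sm ξ).trans hc) fun ζ _ => u2 ζ, u1 ξ⟩⟩

variable {V : Type} [LinearOrder V] [WellFoundedLT V]

theorem lub {s : Set V} {b : V} (h : b ∈ upperBounds s) : ∃ γ, IsLUB s γ :=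
  (wellFounded_lt.has_min _ ⟨b, h⟩).imp fun _ k => ⟨k.1, fun a e => not_lt.1 (k.2 a e)⟩

theorem cl (hc : ℵ₀ ≤ c) {A : Set V} (hA : #A ≤ c) : #{γ | ∃ B ⊆ A, IsLUB B γ} ≤ c := by
  have : ∀ γ : V, ∃ o : Option A, (∀ m, o = some m → γ < m) ∧ ∀ a ∈ A, γ < a → ∃ m, o = some m ∧ m ≤ a :=
    fun γ => by
      by_cases e : (A ∩ Ioi γ).Nonempty
      · obtain ⟨m, m1, m2⟩ := wellFounded_lt.has_min _ e
        exact ⟨some ⟨m, m1.1⟩, fun _ k => Option.some.inj k ▸ m1.2,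
          fun a a1 a2 => ⟨_, rfl, not_lt.1 (m2 a ⟨a1, a2⟩)⟩⟩
      · exact ⟨none, by simp, fun a a1 a2 => (e ⟨a, a1, a2⟩).elim⟩
  choose o o1 o2 using this
  have k : ∀ γ, ∀ δ ∈ {γ | ∃ B ⊆ A, IsLUB B γ}, o γ = o δ → ¬γ < δ := fun γ δ ⟨B, b1, b2⟩ e k => by
    obtain ⟨b, b3, b4⟩ := (lt_isLUB_iff b2).1 k
    obtain ⟨m, m1, m2⟩ := o2 γ b (b1 b3) b4
    exact (o1 δ m (e ▸ m1)).not_ge (m2.trans (b2.1 b3))
  refine (mk_le_of_injective (f := fun γ : {γ | ∃ B ⊆ A, IsLUB B γ} => o γ) fun γ δ e =>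
    Subtype.ext (le_antisymm (not_lt.1 (k _ _ γ.2 e.symm)) (not_lt.1 (k _ _ δ.2 e)))).trans ?_
  rw [mk_option]
  exact add_le_of_le hc hA (one_le_aleph0.trans hc)

def J (P : V → Set V) (A : Set V) : Prop := (∃ b, A ⊆ Iio b) ∧ (∀ β ∈ A, ∀ α < β, α ∈ A ↔ α ∈ P β) ∧
  ∀ B ⊆ A, B.Countable → B.Nonempty → ∀ γ, IsLUB B γ → γ ∈ A

def Cf (A : Set V) (γ : V) : Prop := ∀ β < γ, ∃ a ∈ A, β ≤ a ∧ a < γ

variable {P : V → Set V} {A B : Set V}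

omit [WellFoundedLT V] in
theorem J.iff (h : J P A) (k : J P B) {α σ : V} (a : σ ∈ A) (b : σ ∈ B) (e : α ≤ σ) :
    α ∈ A ↔ α ∈ B := e.eq_or_lt.elim (fun e => e ▸ iff_of_true a b) fun e =>
      (h.2.1 σ a α e).trans (k.2.1 σ b α e).symm

theorem uq (h : J P A) (k : J P B) {γ : V} (a : Cf A γ) (b : Cf B γ) : A ∩ Iio γ = B ∩ Iio γ := by
  refine Set.ext fun α => and_congr_left fun e => ?_
  choose f f1 f2 f3 using fun β : Iio γ => a β β.2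
  choose g g1 g2 g3 using fun β : Iio γ => b β β.2
  let s : ℕ → Iio γ := fun n => n.rec ⟨α, e⟩ fun _ β => ⟨g ⟨f β, f3 β⟩, g3 _⟩
  obtain ⟨σ, hσ⟩ := lub (s := range fun n => f (s n)) (b := γ) (forall_mem_range.2 fun n => (f3 _).le)
  exact h.iff k (h.2.2 _ (range_subset_iff.2 fun n => f1 _) (countable_range _) (range_nonempty _) σ hσ)
    (k.2.2 (range fun n => (s (n + 1)).1) (range_subset_iff.2 fun n => g1 _) (countable_range _)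
      (range_nonempty _) σ ⟨forall_mem_range.2 fun n => (f2 _).trans (hσ.1 ⟨n + 1, rfl⟩), fun u hu =>
        hσ.2 (forall_mem_range.2 fun n => (g2 ⟨_, f3 (s n)⟩).trans (hu ⟨n, rfl⟩))⟩)
    ((f2 (s 0)).trans (hσ.1 ⟨0, rfl⟩))

theorem club (hc : ℵ₀ ≤ c) (G : W (succ c) → W (succ c)) (b : W (succ c)) : ∃ e, b < e ∧
    (∀ s ⊆ Iio e, #s ≤ c → ∃ ρ < e, s ⊆ Iio ρ) ∧ ∀ ρ < e, G ρ ≤ e := by
  have h := hc.trans (le_succ c)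
  have : ∀ V : Set (W (succ c)), ∃ t, #V ≤ succ c → b < t ∧ ∀ v ∈ V, v < t ∧ ∀ ρ ≤ v, G ρ < t :=
    fun V => (em (#V ≤ succ c)).elim (fun k => (bd h (un2 h (un2 h ((mk_singleton b).trans_le
      (one_le_aleph0.trans h)) k) (un h k fun v _ => mk_image_le.trans (sm' h v)))).imp fun t e _ =>
        ⟨e _ (.inl (.inl rfl)), fun v a => ⟨e _ (.inl (.inr a)), fun ρ r =>
          e _ (.inr (mem_biUnion a ⟨ρ, r, rfl⟩))⟩⟩) fun k => ⟨b, fun e => absurd e k⟩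
  choose t ht using this
  obtain ⟨U, hU⟩ := rc h (le_succ c) (fun V => {t V}) fun V _ =>
    (mk_singleton _).trans_le (one_le_aleph0.trans h)
  let u := fun ξ => t (⋃ ζ ∈ Iio ξ, U ζ)
  have k : ∀ ζ ξ, ζ < ξ → u ζ < u ξ ∧ ∀ ρ ≤ u ζ, G ρ < u ξ := fun ζ ξ e =>
    (ht _ (hU ξ).1).2 _ (mem_biUnion e ((hU ζ).2.ge rfl))
  have n : ∀ ξ : W c, ∃ ζ, ξ < ζ := fun ξ => (bd hc ((mk_singleton ξ).trans_le
    (one_le_aleph0.trans hc))).imp fun _ e => e ξ rfl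
  obtain ⟨m, hm⟩ := bd h (mk_range_le (f := u).trans (mk_ord_toType _).le)
  obtain ⟨e, he⟩ := lub (s := range u) (b := m) fun a e => (hm a e).le
  have l : ∀ ξ, u ξ < e := fun ξ => (n ξ).elim fun ζ a => (k _ _ a).1.trans_le (he.1 ⟨ζ, rfl⟩)
  obtain ⟨o, -⟩ := bd hc (s := ∅) (by simp)
  refine ⟨e, (ht _ (hU o).1).1.trans (l o), fun s s1 s2 => ?_, fun ρ r => ?_⟩
  · choose f f1 using fun a : s => exists_range_iff.1 ((lt_isLUB_iff he).1 (s1 a.2))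
    obtain ⟨ξ, hξ⟩ := bd hc (mk_range_le (f := f).trans s2)
    exact ⟨u ξ, l ξ, fun a e => (f1 ⟨a, e⟩).trans (k _ _ (hξ _ ⟨_, rfl⟩)).1⟩
  · obtain ⟨_, ⟨ξ, rfl⟩, a⟩ := (lt_isLUB_iff he).1 r
    obtain ⟨ζ, z⟩ := n ξ
    exact (((k _ _ z).2 ρ a.le).trans (l ζ)).le

theorem key (h : ∃ b, A ⊆ Iio b) : ∃ γ, A ⊆ Iio γ ∧ Cf A γ ∧ ∀ b, A ⊆ Iio b → γ ≤ b := by
  obtain ⟨γ, g1, g2⟩ := wellFounded_lt.has_min {b | A ⊆ Iio b} h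
  refine ⟨γ, g1, fun β e => ?_, fun b e => not_lt.1 (g2 b e)⟩
  obtain ⟨a, a1, a2⟩ := not_subset.1 fun k => g2 β k e
  exact ⟨a, a1, not_lt.1 a2, g1 a1⟩

theorem core : ∃ P : W (succ (succ ℵ₀)) → Set (W (succ (succ ℵ₀))), ∀ (T : Type)
    (g : Subtype (J P) → W (succ (succ ℵ₀))) (𝒰 : Subtype (J P) → Set T), (∀ A, (𝒰 A).Countable) →
      𝒰.Injective → ¬∀ A B, A.1 ∩ Iio (g A) = B.1 ∩ Iio (g A) → 𝒰 A ⊆ 𝒰 B := by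
  have h1 := le_succ ℵ₀
  have h2 := h1.trans (le_succ _)
  obtain ⟨o, -⟩ := bd h1 (s := ∅) (by simp)
  have : ∀ β : W (succ (succ ℵ₀)), ∃ f : W (succ ℵ₀) → W (succ (succ ℵ₀)), Iio β ⊆ range f := fun β => by
    obtain ⟨f⟩ := (le_def _ _).1 ((sm' h2 β).trans (mk_ord_toType _).ge)
    have : Nonempty (Iic β) := ⟨⟨β, self_mem_Iic⟩⟩
    exact ⟨fun ξ => (Function.invFun f ξ).1, fun α a => ⟨f ⟨α, Iio_subset_Iic_self a⟩, by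
      simp only [Function.leftInverse_invFun f.injective _]⟩⟩
  choose e he using this
  by_contra! k
  choose T g 𝒰 u1 u2 u3 using fun i => k fun β => e β '' Iio i
  have : ∀ γ, ∃ b, ∀ i (A : Subtype (J fun β => e β '' Iio i)), A.1 ⊆ Iio γ → Cf A.1 γ → g i A < b :=
    fun γ => (bd h2 (s := ⋃ i ∈ Set.univ, g i '' {A | A.1 ⊆ Iio γ ∧ Cf A.1 γ}) (un h2
      (mk_univ.trans (mk_ord_toType _)).le fun i _ => mk_image_le.trans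
        ((mk_le_one_iff_set_subsingleton.2 fun A a B b => Subtype.ext
          ((inter_eq_left.2 a.1).symm.trans ((uq A.2 B.2 a.2 b.2).trans (inter_eq_left.2 b.1)))).trans
            (one_le_aleph0.trans h2)))).imp fun b k i A a1 a2 =>
              k _ (mem_biUnion (mem_univ i) ⟨A, ⟨a1, a2⟩, rfl⟩)
  choose G hG using this
  choose E e1 e2 e3 using club h1 G
  have : Nonempty _ := ⟨o⟩
  have : Nonempty _ := ⟨(bd h2 (s := ∅) (by simp)).choose⟩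
  choose! b hb using fun (s : Set _) (k : #s ≤ succ ℵ₀) => bd h2 (s := s) (k.trans (le_succ _))
  choose! r hr using fun β α (k : α < β) => he β k
  have p1 : ∀ V : Set (W (succ (succ ℵ₀)) ⊕ W (succ ℵ₀)), #V ≤ succ ℵ₀ → #(Sum.inl ⁻¹' V) ≤ succ ℵ₀ :=
    fun V k => (mk_preimage_of_injective _ _ Sum.inl_injective).trans k
  have p2 : ∀ V : Set (W (succ (succ ℵ₀)) ⊕ W (succ ℵ₀)), #V ≤ succ ℵ₀ → #(Sum.inr ⁻¹' V) ≤ succ ℵ₀ :=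
    fun V k => (mk_preimage_of_injective _ _ Sum.inr_injective).trans k
  obtain ⟨U, hU⟩ := rc (c := ℵ₀) h1 h1 (fun V => Sum.inl '' (({E (b (Sum.inl ⁻¹' V))} ∪
    {γ | ∃ B ⊆ Sum.inl ⁻¹' V, IsLUB B γ}) ∪ ⋃ β ∈ Sum.inl ⁻¹' V, e β '' (Sum.inr ⁻¹' V)) ∪ Sum.inr ''
      ((⋃ ξ ∈ Sum.inr ⁻¹' V, Iio ξ) ∪ ⋃ β ∈ Sum.inl ⁻¹' V, (fun α => r β α) '' (Sum.inl ⁻¹' V)))
    fun V k => un2 h1 (mk_image_le.trans (un2 h1 (un2 h1 ((mk_singleton _).trans_le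
      (one_le_aleph0.trans h1)) (cl h1 (p1 V k))) (un h1 (p1 V k) fun _ _ => mk_image_le.trans
        (p2 V k)))) (mk_image_le.trans (un2 h1 (un h1 (p2 V k) fun _ _ => sm _)
          (un h1 (p1 V k) fun _ _ => mk_image_le.trans (p1 V k))))
  have n : ∀ C ⊆ ⋃ ξ, U ξ, C.Countable → ∃ ξ, C ⊆ ⋃ ζ ∈ Iio ξ, U ζ := fun C c1 c2 => by
    choose f f1 using fun a : C => mem_iUnion.1 (c1 a.2)
    obtain ⟨ξ, hξ⟩ := bd le_rfl (mk_range_le (f := f).trans (le_aleph0_iff_set_countable.2 c2))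
    exact ⟨ξ, fun a e => mem_biUnion (hξ _ ⟨_, rfl⟩) (f1 ⟨a, e⟩)⟩
  have n2 : ∀ x ∈ ⋃ ξ, U ξ, ∀ y ∈ ⋃ ξ, U ξ, ∃ ξ, x ∈ ⋃ ζ ∈ Iio ξ, U ζ ∧ y ∈ ⋃ ζ ∈ Iio ξ, U ζ :=
    fun x a y b => (n {x, y} (pair_subset a b) (to_countable _)).imp fun _ => pair_subset_iff.1
  have s1 : #(⋃ ξ, U ξ) ≤ succ ℵ₀ := by
    rw [← biUnion_univ]
    refine un h1 (mk_univ.trans (mk_ord_toType _)).le fun ξ _ => ?_
    obtain ⟨ζ, z⟩ := bd le_rfl ((mk_singleton ξ).trans_le one_le_aleph0)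
    exact (mk_le_mk_of_subset (subset_biUnion_of_mem (u := U) (mem_Iio.2 (z ξ rfl)))).trans (hU ζ).1
  obtain ⟨i, i1, i2, -⟩ := key (bd h1 (p2 _ s1))
  replace i2 : ∀ ξ < i, Sum.inr ξ ∈ ⋃ ξ, U ξ := fun ξ k => by
    obtain ⟨ζ, z1, z2, -⟩ := i2 ξ k
    rcases z2.eq_or_lt with rfl | z2
    · exact z1
    obtain ⟨η, k, -⟩ := n2 _ z1 _ z1
    exact mem_iUnion.2 ⟨η, (hU η).2.ge (.inr ⟨ξ, .inl (mem_biUnion k z2), rfl⟩)⟩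
  have a : J (fun β => e β '' Iio i) (Sum.inl ⁻¹' ⋃ ξ, U ξ) := by
    refine ⟨⟨_, hb _ (p1 _ s1)⟩, fun β k α l => ⟨fun a => ?_, ?_⟩, fun B b1 b2 _ γ b3 => ?_⟩
    · obtain ⟨η, k1, k2⟩ := n2 _ k _ a
      exact ⟨r β α, i1 (mem_iUnion.2 ⟨η, (hU η).2.ge (.inr ⟨_, .inr (mem_biUnion k1 ⟨α, k2, rfl⟩),
        rfl⟩)⟩), hr β α l⟩
    · rintro ⟨ξ, a, rfl⟩
      obtain ⟨η, k1, k2⟩ := n2 _ k _ (i2 ξ a)
      exact mem_iUnion.2 ⟨η, (hU η).2.ge (.inl ⟨_, .inr (mem_biUnion k1 ⟨ξ, k2, rfl⟩), rfl⟩)⟩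
    · obtain ⟨η, k⟩ := n _ (image_subset_iff.2 b1) (b2.image _)
      exact mem_iUnion.2 ⟨η, (hU η).2.ge (.inl ⟨_, .inl (.inr ⟨B, image_subset_iff.1 k, b3⟩), rfl⟩)⟩
  let ε := fun ξ => E (b (Sum.inl ⁻¹' ⋃ ζ ∈ Iio ξ, U ζ))
  have f1 : ∀ ξ, Sum.inl (ε ξ) ∈ U ξ := fun ξ => (hU ξ).2.ge (.inl ⟨_, .inl (.inl rfl), rfl⟩)
  have f2 : StrictMono ε := fun ζ ξ k => (hb _ (p1 _ (hU ξ).1) _ (mem_biUnion k (f1 ζ))).trans (e1 _)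
  have f3 : ∀ ξ, ∃ ρ < ε ξ, (Sum.inl ⁻¹' ⋃ ξ, U ξ) ∩ Iio (ε ξ) ⊆ Iio ρ := fun ξ => e2 _ _
    inter_subset_right ((mk_le_mk_of_subset inter_subset_left).trans (p1 _ s1))
  let B : W ℵ₀ → Subtype (J fun β => e β '' Iio i) := fun ξ => ⟨(Sum.inl ⁻¹' ⋃ ξ, U ξ) ∩ Iio (ε ξ),
    ⟨_, inter_subset_right⟩, fun β k α l => (and_iff_left (l.trans k.2)).trans (a.2.1 β k.1 α l),
      fun B b1 b2 b3 γ b4 => ⟨a.2.2 B (b1.trans inter_subset_left) b2 b3 γ b4, (f3 ξ).elim fun ρ k =>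
        (b4.2 fun _ c => (k.2 (b1 c)).le).trans_lt k.1⟩⟩
  have f4 : ∀ ξ (C : Subtype (J fun β => e β '' Iio i)), C.1 ∩ Iio (ε ξ) = (B ξ).1 →
      𝒰 i (B ξ) ⊆ 𝒰 i C := fun ξ C k => u3 i _ _ (by
    obtain ⟨ρ, r1, r2⟩ := f3 ξ
    obtain ⟨γ, g1, g2, g3⟩ := key ⟨ρ, r2⟩
    rw [← k, inter_assoc, inter_eq_right.2 (Iio_subset_Iio ((hG γ i (B ξ) g1 g2).le.trans
      (e3 _ γ ((g3 ρ r2).trans_lt r1))))])
  have f5 : ∀ ζ ξ, ζ ≤ ξ → 𝒰 i (B ζ) ⊆ 𝒰 i (B ξ) := fun ζ ξ k => f4 _ _ (by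
    rw [inter_assoc, inter_eq_right.2 (Iio_subset_Iio (f2.monotone k))])
  choose f f6 using fun t : ⋃ ξ, 𝒰 i (B ξ) => mem_iUnion.1 t.2
  obtain ⟨ξ, hξ⟩ := bd le_rfl (mk_range_le (f := f).trans (le_aleph0_iff_set_countable.2
    ((u1 i ⟨_, a⟩).mono (iUnion_subset fun ξ => f4 ξ _ rfl))))
  obtain ⟨ζ, z⟩ := bd le_rfl ((mk_singleton ξ).trans_le one_le_aleph0)
  exact lt_irrefl (ε ξ) ((congrArg Subtype.val (u2 i ((f5 _ _ (z ξ rfl).le).antisymm fun t k =>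
    f5 _ _ (hξ _ ⟨_, rfl⟩).le (f6 ⟨t, mem_iUnion.2 ⟨ζ, k⟩⟩)))).ge
      ⟨mem_iUnion.2 ⟨ξ, f1 ξ⟩, f2 (z ξ rfl)⟩).2

end Pool.Agent.H.MP_64b69f
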