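import Pool.Agent.H.MP_64b69f.A

set_option autoImplicit false
open Set Cardinal Order Filter Topology

namespace Pool.Agent.H.MP_64b69f

variable {V : Type} [LinearOrder V] [WellFoundedLT V] (P : V → Set V)

open Classical in
noncomputable def pt (β : V) (A : Subtype (J P)) : Bool := decide (β ∈ A.1)

theorem star (y : closure (range (pt P))) : ∃ ρ, ∀ A, y.1 A = true → Cf A.1 ρ ∧
    ∀ B, y.1 B = true ↔ A.1 ∩ Iio ρ = B.1 ∩ Iio ρ := by
  classical
  have : (comap (pt P) (𝓝 y.1)).NeBot := comap_neBot fun t k =>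
    (mem_closure_iff_nhds.1 y.2 t k).elim fun _ ⟨a, β, b⟩ => ⟨β, b ▸ a⟩
  let u := Ultrafilter.of (comap (pt P) (𝓝 y.1))
  have h : ∀ A, y.1 A = true ↔ A.1 ∈ u := fun A => by
    have : {β | pt P β A = y.1 A} ∈ u := Ultrafilter.of_le _ (preimage_mem_comap
      (t := (fun z : Subtype (J P) → Bool => z A) ⁻¹' {y.1 A})
        ((continuous_apply A).continuousAt (mem_nhds_discrete.2 rfl)))
    refine ⟨fun k => mem_of_superset this fun β e => of_decide_eq_true (e.trans k), fun k => ?_⟩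
    obtain ⟨β, a, b⟩ := u.nonempty_of_mem (inter_mem this k)
    exact a.symm.trans (decide_eq_true b)
  simp only [h]
  by_cases e : ∃ ρ, Iio ρ ∈ u
  · obtain ⟨ρ, r1, r2⟩ := wellFounded_lt.has_min {ρ | Iio ρ ∈ u} e
    have c : ∀ S ∈ u, Cf S ρ := fun S k β b => (u.nonempty_of_mem (inter_mem k (inter_mem
      (Ultrafilter.compl_mem_iff_notMem.2 fun e => r2 β e b) r1))).imp fun a k =>
        ⟨k.1, not_lt.1 k.2.1, k.2.2⟩
    refine ⟨ρ, fun A a => ⟨c _ a, fun B => ⟨fun b => Set.ext fun α => and_congr_left fun l => ?_,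
      fun k => mem_of_superset (inter_mem a r1) (k.le.trans inter_subset_left)⟩⟩⟩
    obtain ⟨σ, s1, s2, -⟩ := c _ (inter_mem a b) α l
    exact A.2.iff B.2 s1.1 s1.2 s2
  · exact ⟨(u.nonempty_of_mem univ_mem).some, fun A a => A.2.1.elim fun b k =>
      (e ⟨b, mem_of_superset a k⟩).elim⟩

omit [WellFoundedLT V] in
theorem ev (A : Subtype (J P)) : Continuous fun y : closure (range (pt P)) => y.1 A :=
  (continuous_apply A).comp continuous_subtype_val

theorem mono (Y : Set (closure (range (pt P)))) : ∃ N : Set (Set (closure (range (pt P)))),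
    (∀ n ∈ N, n ⊆ closure Y) ∧ (∀ x ∈ closure Y, ∀ U, IsOpen U → x ∈ U → ∃ n ∈ N, x ∈ n ∧ n ⊆ U) ∧
      #N ≤ max #Y ℵ₀ := by
  choose ρ r1 r2 using star P
  have : ∀ A : Subtype (J P), ∃ γ, IsLUB (ρ '' {y ∈ Y | y.1 A = true}) γ := fun A =>
    A.2.1.elim fun b k => lub (b := b) (forall_mem_image.2 fun y e => not_lt.1 fun l =>
      (r1 y A e.2 b l).elim fun a m => m.2.1.not_gt (k m.1))
  choose γ hγ using this
  have c : ∀ A, Cf A.1 (γ A) := fun A β k => by
    obtain ⟨_, ⟨y, y1, rfl⟩, y2⟩ := (lt_isLUB_iff (hγ A)).1 k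
    exact (r1 y A y1.2 β y2).imp fun a m => ⟨m.1, m.2.1, m.2.2.trans_le ((hγ A).1 ⟨y, y1, rfl⟩)⟩
  have d : ∀ A B, γ A = γ B → ∀ y ∈ Y, y.1 A = true → y.1 B = true := fun A B k y y1 y2 =>
    (r2 y A y2 B).2 (by
      rw [← inter_eq_right.2 (Iio_subset_Iio ((hγ A).1 ⟨y, ⟨y1, y2⟩, rfl⟩)), ← inter_assoc,
        ← inter_assoc, uq A.2 B.2 (c A) (k ▸ c B)])
  replace d : ∀ A B, γ A = γ B → ∀ y ∈ closure Y, y.1 A = y.1 B := fun A B k => closure_minimal
    (fun y e => Bool.eq_iff_iff.2 ⟨d A B k y e, d B A k.symm y e⟩)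
      (isClosed_eq (ev P A) (ev P B))
  have m := le_max_right #Y ℵ₀
  refine ⟨range fun l : List (range γ × Bool) => closure Y ∩ {y | ∀ c ∈ l,
    y.1 (rangeSplitting γ c.1) = c.2}, forall_mem_range.2 fun _ => inter_subset_left,
      fun x hx U u1 u2 => ?_, mk_range_le.trans ((mk_list_le_max _).trans (max_le m ?_))⟩
  · obtain ⟨S, s1, s2⟩ := (mem_nhds_subtype _ _ _).1 (u1.mem_nhds u2)
    obtain ⟨I, I1, t, t1, t2⟩ := Filter.mem_pi.1 (nhds_pi.ge s1)
    have k := fun A => d A _ (apply_rangeSplitting γ ⟨γ A, A, rfl⟩).symm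
    refine ⟨_, ⟨I1.toFinset.toList.map fun A => (⟨γ A, A, rfl⟩, x.1 A), rfl⟩,
      ⟨hx, List.forall_mem_map.2 fun A _ => (k A x hx).symm⟩, fun y e => s2 (t2 fun A a => ?_)⟩
    rw [k A y e.1, List.forall_mem_map.1 e.2 A (by simpa)]
    exact mem_of_mem_nhds (t1 A)
  · rw [mk_prod, lift_id, lift_id]
    refine mul_le_of_le m (le_trans (mk_le_mk_of_subset ?_) (cl (A := ρ '' Y) m
      (mk_image_le.trans (le_max_left _ _)))) (mk_le_aleph0.trans m)
    rintro _ ⟨A, rfl⟩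
    exact ⟨_, image_mono (sep_subset _ _), hγ A⟩

theorem main : ∃ (X : Type) (_ : TopologicalSpace X), CompactSpace X ∧ T2Space X ∧
    (∀ A : Set X, ∃ N : Set (Set X), (∀ n ∈ N, n ⊆ closure A) ∧
      (∀ x ∈ closure A, ∀ U, IsOpen U → x ∈ U → ∃ n ∈ N, x ∈ n ∧ n ⊆ U) ∧ #N ≤ max #A ℵ₀) ∧
    ∀ (T : Type) (U : T → Set {h : X → ℝ // Continuous h}), (∀ t, IsOpen (U t)) →
      (∀ f, {t | f ∈ U t}.Countable) → ¬∀ f g, (∀ t, f ∈ U t ↔ g ∈ U t) → f = g := by
  classical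
  obtain ⟨P, h⟩ := core
  refine ⟨closure (range (pt P)), inferInstance, isCompact_iff_compactSpace.1
    isClosed_closure.isCompact, inferInstance, mono P, fun T U u1 u2 u3 => ?_⟩
  choose ρ r1 r2 using star P
  let f : Subtype (J P) → {h : closure (range (pt P)) → ℝ // Continuous h} := fun A =>
    ⟨fun y => if y.1 A then 1 else 0, (continuous_of_discreteTopology
      (f := fun b : Bool => if b then (1 : ℝ) else 0)).comp (ev P A)⟩
  have : ∀ A t, ∃ I : Set _, I.Finite ∧ (f A ∈ U t → ∀ g, EqOn g.1 (f A).1 I → g ∈ U t) := fun A t => by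
    by_cases k : f A ∈ U t
    · obtain ⟨S, s1, s2⟩ := (mem_nhds_subtype _ _ _).1 ((u1 t).mem_nhds k)
      obtain ⟨I, I1, t, t1, t2⟩ := Filter.mem_pi.1 (nhds_pi.ge s1)
      exact ⟨I, I1, fun _ g e => s2 (t2 fun y a => e a ▸ mem_of_mem_nhds (t1 y))⟩
    · exact ⟨∅, finite_empty, fun e => absurd e k⟩
  choose I I1 I2 using this
  have h2 := (le_succ ℵ₀).trans (le_succ _)
  choose g hg using fun A => bd h2 ((le_aleph0_iff_set_countable.2 (((u2 (f A)).biUnion fun t _ =>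
    (I1 A t).countable).image ρ)).trans h2)
  refine h T g (fun A => {t | f A ∈ U t}) (fun A => u2 _) (fun A B e => Subtype.ext
    (Set.ext fun β => ?_)) fun A B e t k => I2 A t k _ fun y a => ?_
  · have := congrFun (congrArg Subtype.val (u3 _ _ (Set.ext_iff.1 e))) ⟨_, subset_closure ⟨β, rfl⟩⟩
    refine decide_eq_decide.1 (?_ : pt P β A = pt P β B)
    change (if pt P β A then (1 : ℝ) else 0) = if pt P β B then 1 else 0 at this
    revert this
    cases pt P β A <;> cases pt P β B <;> simp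
  · have : A.1 ∩ Iio (ρ y) = B.1 ∩ Iio (ρ y) := by
      rw [← inter_eq_right.2 (Iio_subset_Iio (hg A _ ⟨y, mem_biUnion k a, rfl⟩).le), ← inter_assoc,
        ← inter_assoc, e]
    exact congrArg (fun b : Bool => if b then (1 : ℝ) else 0)
      (Bool.eq_iff_iff.2 ⟨fun k => (r2 y B k A).2 this.symm, fun k => (r2 y A k B).2 this⟩)

end Pool.Agent.H.MP_64b69f
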